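import Pool.Agent.Rpr.Chk

/-!
# The table of literals, the input clauses, the final theorem
-/

set_option autoImplicit false

namespace Rpr

theorem PP_chk : ∀ m : ℕ, m < 2048 → 2 ≤ m → Nat.gcd m PP ≠ 1 := by decide +kernel

theorem prm_sound {q : ℕ} (h : prm q = true) : 2048 < q ∧ q ≤ 4194303 ∧ q.Prime := by
  obtain ⟨h1, h2⟩ := bool_rec_true h
  obtain ⟨h3, h4⟩ := bool_rec_true h2
  have h1' : 2049 ≤ q := Nat.le_of_ble_eq_true h1
  have h3' : q ≤ 4194303 := Nat.le_of_ble_eq_true h3
  have h4' : Nat.gcd q PP = 1 := Nat.eq_of_beq_eq_true h4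
  refine ⟨h1', h3', ?_⟩
  by_contra hnp
  have hm : (q.minFac).Prime := Nat.minFac_prime (by omega)
  have hsq : q.minFac ^ 2 ≤ q := Nat.minFac_sq_le_self (by omega) hnp
  have hlt : q.minFac < 2048 := by
    by_contra hge
    have : 2048 ^ 2 ≤ q.minFac ^ 2 := Nat.pow_le_pow_left (by omega) 2
    omega
  have h5 := PP_chk _ hlt hm.two_le
  have h6 : q.minFac ∣ PP := by
    by_contra hnd
    exact h5 ((Nat.Prime.coprime_iff_not_dvd hm).2 hnd)
  have h7 : q.minFac ∣ 1 := by rw [← h4']; exact Nat.dvd_gcd (Nat.minFac_dvd q) h6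
  exact hm.one_lt.ne' (Nat.dvd_one.1 h7)

structure TabOK (QT w : ℕ) : Prop where
  big : ∀ x < w, 2048 < qt QT x
  prime : ∀ x < w, (qt QT x).Prime
  prime' : ∀ x < w, (qt QT x ^^^ 2).Prime
  big' : ∀ x < w, 2048 < qt QT x ^^^ 2
  bit : ∀ x < w, (qt QT x).testBit 1 = false
  mono : ∀ x < w, qt QT x < qt QT (x + 1)

theorem tab_sound {QT : ℕ} : ∀ {n : ℕ}, tabc QT n = true → TabOK QT n := by
  intro n
  induction n with
  | zero => intro _; constructor <;> intro x hx <;> exact absurd hx (Nat.not_lt_zero x)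
  | succ n ih =>
    intro h
    obtain ⟨h1, h2⟩ := bool_rec_true h
    obtain ⟨h3, h4⟩ := bool_rec_true h2
    obtain ⟨h5, h6⟩ := bool_rec_true h4
    obtain ⟨h7, h8⟩ := bool_rec_true h6
    have hi := ih h8
    have p1 := prm_sound h1
    have p2 := prm_sound h3
    have hb : (qt QT n).testBit 1 = false := by
      have e : qt QT n &&& 2 = 0 := Nat.eq_of_beq_eq_true h5
      have t2 : Nat.testBit 2 1 = true := by decide
      have e2 := congrArg (fun z => Nat.testBit z 1) e
      simpa [Nat.testBit_and, t2] using e2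
    have hm : qt QT n < qt QT (n + 1) := Nat.le_of_ble_eq_true h7
    have key : ∀ (R : ℕ → Prop), (∀ x < n, R x) → R n → ∀ x < n + 1, R x := by
      intro R hR hn x hx
      rcases Nat.lt_succ_iff_lt_or_eq.1 hx with h | h
      · exact hR x h
      · rw [h]; exact hn
    exact ⟨key _ hi.big p1.1, key _ hi.prime p1.2.2, key _ hi.prime' p2.2.2,
      key _ hi.big' p2.1, key _ hi.bit hb, key _ hi.mono hm⟩

theorem TabOK.inj {QT w : ℕ} (h : TabOK QT w) {x y : ℕ} (hx : x < w) (hy : y < w)
    (hxy : qt QT x = qt QT y) : x = y := by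
  have hlt : ∀ a b : ℕ, a < b → b < w → qt QT a < qt QT b := by
    intro a b hab
    induction b with
    | zero => exact absurd hab (Nat.not_lt_zero a)
    | succ b ih =>
      intro hb
      rcases Nat.lt_succ_iff_lt_or_eq.1 hab with h1 | h1
      · exact (ih h1 (by omega)).trans (h.mono b (by omega))
      · rw [h1]; exact h.mono b (by omega)
  rcases Nat.lt_trichotomy x y with h1 | h1 | h1
  · exact absurd hxy (hlt x y h1 hy).ne
  · exact h1
  · exact absurd hxy.symm (hlt y x h1 hx).ne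

theorem code_qt {QT w x : ℕ} (h : TabOK QT w) (hx : x < w) :
    Code (qt QT x) ∧ Code (qt QT x ^^^ 2) := by
  refine ⟨⟨h.big x hx, h.prime x hx, h.prime' x hx⟩, h.big' x hx, h.prime' x hx, ?_⟩
  have : (qt QT x ^^^ 2) ^^^ 2 = qt QT x := by
    rw [Nat.xor_assoc, Nat.xor_self, Nat.xor_zero]
  rw [this]
  exact h.prime x hx

theorem prod_sound {QT PR w : ℕ} (h : TabOK QT w) :
    ∀ n ≤ w, ∀ a : ℕ, Good a → prodc QT PR n a = true → Good PR := by
  intro n
  induction n with
  | zero => intro _ a ha hc; rw [← Nat.eq_of_beq_eq_true hc]; exact ha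
  | succ n ih =>
    intro hn a ha hc
    refine ih (by omega) _ ?_ (bool_rec_true hc).2
    intro q hq hqd
    have hc := code_qt h (show n < w by omega)
    rcases (Nat.Prime.dvd_mul hq).1 hqd with h1 | h1
    · exact ha q hq h1
    · rcases (Nat.Prime.dvd_mul hq).1 h1 with h2 | h2
      · rw [(Nat.prime_dvd_prime_iff_eq hq hc.1.2.1).1 h2]; exact hc.1
      · rw [(Nat.prime_dvd_prime_iff_eq hq hc.2.2.1).1 h2]; exact hc.2

theorem good_one : Good 1 := by
  intro q hq hqd
  exact absurd (Nat.dvd_one.1 hqd) hq.one_lt.ne'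

/-! ## The valuation of the literals -/

open Classical in
noncomputable def w0 (QT w : ℕ) (val : ℕ → Bool) (q : ℕ) : Bool :=
  decide ((∃ x, x < w ∧ qt QT x = q ∧ val x = true) ∨ ¬ ∃ x, x < w ∧ qt QT x = q)

noncomputable def VV (QT w : ℕ) (val : ℕ → Bool) (q : ℕ) : Bool :=
  if q.testBit 1 = false then w0 QT w val q else !(w0 QT w val (q ^^^ 2))

theorem w0_qt {QT w : ℕ} (h : TabOK QT w) (val : ℕ → Bool) {x : ℕ} (hx : x < w) :
    w0 QT w val (qt QT x) = val x := by
  unfold w0
  cases hv : val x with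
  | true =>
    rw [decide_eq_true_eq]
    exact Or.inl ⟨x, hx, rfl, hv⟩
  | false =>
    rw [decide_eq_false_iff_not]
    rintro (⟨y, hy, hyq, hyv⟩ | hn)
    · rw [h.inj hy hx hyq, hv] at hyv; exact absurd hyv (by decide)
    · exact hn ⟨x, hx, rfl⟩

theorem VV_ok {QT w : ℕ} (h : TabOK QT w) (val : ℕ → Bool) : Vok (VV QT w val) := by
  constructor
  · intro q
    have hx : (q ^^^ 2) ^^^ 2 = q := by rw [Nat.xor_assoc, Nat.xor_self, Nat.xor_zero]
    have hb : (q ^^^ 2).testBit 1 = !q.testBit 1 := by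
      rw [Nat.testBit_xor]
      have : Nat.testBit 2 1 = true := by decide
      rw [this]; simp
    unfold VV
    rw [hb, hx]
    cases q.testBit 1 <;> simp
  · unfold VV
    have hb : Nat.testBit 2 1 = true := by decide
    have e : (2 ^^^ 2 : ℕ) = 0 := by decide
    rw [hb, e]
    have : w0 QT w val 0 = true := by
      unfold w0
      rw [decide_eq_true_eq]
      right
      rintro ⟨x, hx, hq⟩
      have := h.big x hx
      omega
    simp [this]

theorem cod_prime {QT w : ℕ} (h : TabOK QT w) {x : ℕ} (hx : x < w) (b : Bool) :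
    (cod QT x b).Prime := by
  cases b
  · exact h.prime' x hx
  · exact h.prime x hx

theorem VV_cod {QT w : ℕ} (h : TabOK QT w) (val : ℕ → Bool) {x : ℕ} (hx : x < w) (b : Bool) :
    VV QT w val (cod QT x b) = true ↔ val x = b := by
  have h1 : VV QT w val (qt QT x) = val x := by
    unfold VV
    rw [if_pos (h.bit x hx), w0_qt h val hx]
  cases b
  · have h2 : VV QT w val (cod QT x false) = !VV QT w val (qt QT x) := (VV_ok h val).neg _
    rw [h2, h1]
    simp
  · have h2 : cod QT x true = qt QT x := rfl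
    rw [h2, h1]

/-! ## The input clauses -/

theorem allL_sound {QT w c : ℕ} : ∀ {l : List (ℕ × Bool)}, allL QT w c l = true →
    ∀ p ∈ l, p.1 < w ∧ cod QT p.1 p.2 ∣ c := by
  intro l
  induction l with
  | nil => intro _ p hp; exact absurd hp (List.not_mem_nil)
  | cons a l ih =>
    intro h p hp
    obtain ⟨h1, h2⟩ := bool_rec_true h
    obtain ⟨h3, h4⟩ := bool_rec_true h2
    rcases List.mem_cons.1 hp with rfl | hp
    · exact ⟨Nat.le_of_ble_eq_true h1, Nat.dvd_of_mod_eq_zero (Nat.eq_of_beq_eq_true h3)⟩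
    · exact ih h4 p hp

section

variable {QT w PR cw : ℕ} {gen : ℕ → List (ℕ × Bool)} {valid : ℕ → Bool} {val : ℕ → Bool}

theorem inpd_sound (hT : TabOK QT w) (hPR : Good PR)
    (hval : ∀ g, valid g = true → ∃ p ∈ gen g, val p.1 = p.2) (X : ℕ)
    (K : ℕ → Bool)
    (hK : ∀ m, K m = true → ∀ k, m ≤ k → P (VV QT w val) (slot (X &&& 65535) (X >>> 16) k)) :
    ∀ (cnt d m : ℕ), inpd QT w PR cw gen valid X (Nat.land X 65535)
      (Nat.sub (Nat.shiftLeft 1 (Nat.land X 65535)) 1) K cnt d m = true →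
      ∀ k, m ≤ k → P (VV QT w val) (slot (X &&& 65535) (X >>> 16) k) := by
  intro cnt
  induction cnt with
  | zero => intro d m h; exact hK m h
  | succ cnt ih =>
    intro d m h
    set c := slot (X &&& 65535) (X >>> 16) m with hc
    have hcc : Nat.land (Nat.shiftRight X (Nat.add 16 (Nat.mul m (Nat.land X 65535))))
        (Nat.sub (Nat.shiftLeft 1 (Nat.land X 65535)) 1) = c := by rw [hc, block_slot]
    have main : P (VV QT w val) c ∧ inpd QT w PR cw gen valid X (Nat.land X 65535)
        (Nat.sub (Nat.shiftLeft 1 (Nat.land X 65535)) 1) K cnt (Nat.shiftRight d cw) (m + 1)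
          = true := by
      have h' : Bool.rec (motive := fun _ => Bool)
        (Bool.rec (motive := fun _ => Bool) false
          (Bool.rec (motive := fun _ => Bool) false
            (Bool.rec (motive := fun _ => Bool) false
              (inpd QT w PR cw gen valid X (Nat.land X 65535)
                (Nat.sub (Nat.shiftLeft 1 (Nat.land X 65535)) 1) K cnt (Nat.shiftRight d cw)
                (m + 1))
              (allL QT w (Nat.land (Nat.shiftRight X (Nat.add 16 (Nat.mul m (Nat.land X 65535))))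
                (Nat.sub (Nat.shiftLeft 1 (Nat.land X 65535)) 1))
                (gen (Nat.land d (Nat.sub (Nat.shiftLeft 1 cw) 1)))))
            (valid (Nat.land d (Nat.sub (Nat.shiftLeft 1 cw) 1))))
          (Nat.beq (Nat.mod PR (Nat.land (Nat.shiftRight X (Nat.add 16
            (Nat.mul m (Nat.land X 65535)))) (Nat.sub (Nat.shiftLeft 1 (Nat.land X 65535)) 1))) 0))
        (inpd QT w PR cw gen valid X (Nat.land X 65535)
          (Nat.sub (Nat.shiftLeft 1 (Nat.land X 65535)) 1) K cnt (Nat.shiftRight d cw) (m + 1))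
        (Nat.beq (Nat.land (Nat.shiftRight X (Nat.add 16 (Nat.mul m (Nat.land X 65535))))
          (Nat.sub (Nat.shiftLeft 1 (Nat.land X 65535)) 1)) 0) = true := h
      rw [hcc] at h'
      cases hb : Nat.beq c 0 with
      | true =>
        rw [hb] at h'
        exact ⟨Or.inl (Nat.eq_of_beq_eq_true hb), h'⟩
      | false =>
        rw [hb] at h'
        obtain ⟨h1, h2⟩ := bool_rec_true h'
        obtain ⟨h3, h4⟩ := bool_rec_true h2
        obtain ⟨h5, h6⟩ := bool_rec_true h4
        refine ⟨Or.inr ⟨?_, good_of_dvd (Nat.dvd_of_mod_eq_zero (Nat.eq_of_beq_eq_true h1)) hPR⟩,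
          h6⟩
        obtain ⟨p, hp, hpv⟩ := hval _ h3
        obtain ⟨hw, hd⟩ := allL_sound h5 p hp
        exact ⟨cod QT p.1 p.2, cod_prime hT hw p.2, hd, (VV_cod hT val hw p.2).2 hpv⟩
    intro k hk
    rcases Nat.eq_or_lt_of_le hk with rfl | hlt
    · exact main.1
    · exact ih _ _ main.2 k hlt

theorem chkI_sound (hT : TabOK QT w) (hPR : Good PR)
    (hval : ∀ g, valid g = true → ∃ p ∈ gen g, val p.1 = p.2) {X : ℕ} {gs : List ℕ}
    (h : chkI QT w PR cw gen valid X gs = true) : OKB (VV QT w val) X := by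
  have gen' : ∀ (gs : List ℕ) (m : ℕ), List.rec (motive := fun _ => ℕ → Bool)
    (fun m => Nat.beq (Nat.shiftRight X (Nat.add 16 (Nat.mul m (Nat.land X 65535)))) 0)
    (fun e _ ih m => inpd QT w PR cw gen valid X (Nat.land X 65535)
      (Nat.sub (Nat.shiftLeft 1 (Nat.land X 65535)) 1) ih 64 e m) gs m = true →
      ∀ k, m ≤ k → P (VV QT w val) (slot (X &&& 65535) (X >>> 16) k) := by
    intro gs
    induction gs with
    | nil =>
      intro m h k hk
      have h1 : X >>> (16 + m * (X &&& 65535)) = 0 := Nat.eq_of_beq_eq_true h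
      left
      have h2 : X >>> (16 + k * (X &&& 65535)) = 0 := by
        obtain ⟨d, rfl⟩ := Nat.exists_eq_add_of_le hk
        rw [show 16 + (m + d) * (X &&& 65535) =
          (16 + m * (X &&& 65535)) + d * (X &&& 65535) by ring,
          Nat.shiftRight_add, h1, Nat.zero_shiftRight]
      unfold slot
      rw [← Nat.shiftRight_add, h2, Nat.zero_and]
    | cons e gs ih =>
      intro m h
      exact inpd_sound hT hPR hval X _ ih 64 e m h
  intro k
  exact gen' gs 0 h k (Nat.zero_le k)

/-- the check of the block `j` -/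
def OKc (TB : Tr) (QT w PR cw : ℕ) (gen : ℕ → List (ℕ × Bool)) (valid : ℕ → Bool) (j : ℕ) :
    Prop :=
  (∃ gs, chkI QT w PR cw gen valid (get TB j) gs = true) ∨
    ∃ S gs hs, chkL TB PR j S gs hs = true

theorem all_ok {TB : Tr} (htab : tabc QT w = true) (hprod : prodc QT PR w 1 = true)
    (hval : ∀ g, valid g = true → ∃ p ∈ gen g, val p.1 = p.2) {n : ℕ}
    (h : ∀ j < n, OKc TB QT w PR cw gen valid j) :
    ∀ j < n, OKB (VV QT w val) (get TB j) := by
  have hT := tab_sound htab
  have hPR := prod_sound hT w le_rfl 1 good_one hprod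
  intro j
  induction j using Nat.strong_induction_on with
  | _ j ih =>
    intro hj
    rcases h j hj with ⟨gs, hc⟩ | ⟨S, gs, hs, hc⟩
    · exact chkI_sound hT hPR hval hc
    · exact chkL_sound (VV_ok hT val) hPR (fun b hb => ih b hb (hb.trans hj)) hc

/-- the product of the literals of a clause -/
noncomputable def numL (QT w : ℕ) (l : List (ℕ × Bool)) : ℕ :=
  List.rec (motive := fun _ => ℕ) 1 (fun p _ ih => Nat.mul (cod QT p.1 p.2) ih) l

theorem derived {TB : Tr} (htab : tabc QT w = true) (hprod : prodc QT PR w 1 = true)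
    (hval : ∀ g, valid g = true → ∃ p ∈ gen g, val p.1 = p.2) {n : ℕ}
    (h : ∀ j < n, OKc TB QT w PR cw gen valid j) {j k : ℕ} (hj : j < n) {l : List (ℕ × Bool)}
    (hw : ∀ p ∈ l, p.1 < w) (hl : slot ((get TB j) &&& 65535) ((get TB j) >>> 16) k = numL QT w l) :
    ∃ p ∈ l, val p.1 = p.2 := by
  have hT := tab_sound htab
  have hok := all_ok htab hprod hval h j hj k
  rw [hl] at hok
  have hpos : ∀ l : List (ℕ × Bool), (∀ p ∈ l, p.1 < w) → numL QT w l ≠ 0 := by
    intro l
    induction l with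
    | nil => intro _; exact Nat.one_ne_zero
    | cons a l ih =>
      intro hl'
      exact Nat.mul_ne_zero (cod_prime hT (hl' a (List.mem_cons_self)) a.2).ne_zero
        (ih fun p hp => hl' p (List.mem_cons_of_mem _ hp))
  have hdv : ∀ l : List (ℕ × Bool), (∀ p ∈ l, p.1 < w) → ∀ q : ℕ, q.Prime → q ∣ numL QT w l →
      ∃ p ∈ l, q = cod QT p.1 p.2 := by
    intro l
    induction l with
    | nil => intro _ q hq hqd; exact absurd (Nat.dvd_one.1 hqd) hq.one_lt.ne'
    | cons a l ih =>
      intro hl' q hq hqd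
      rcases (Nat.Prime.dvd_mul hq).1 (show q ∣ cod QT a.1 a.2 * numL QT w l from hqd)
        with h1 | h1
      · exact ⟨a, List.mem_cons_self, (Nat.prime_dvd_prime_iff_eq hq
          (cod_prime hT (hl' a (List.mem_cons_self)) a.2)).1 h1⟩
      · obtain ⟨p, hp, hpq⟩ := ih (fun p hp => hl' p (List.mem_cons_of_mem _ hp)) q hq h1
        exact ⟨p, List.mem_cons_of_mem _ hp, hpq⟩
  rcases hok with h0 | ⟨⟨q, hq, hqd, hqv⟩, -⟩
  · exact absurd h0 (hpos l hw)
  · obtain ⟨p, hp, rfl⟩ := hdv l hw q hq hqd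
    exact ⟨p, hp, (VV_cod hT val (hw p hp) p.2).1 hqv⟩

theorem refuted {TB : Tr} (htab : tabc QT w = true) (hprod : prodc QT PR w 1 = true)
    (hval : ∀ g, valid g = true → ∃ p ∈ gen g, val p.1 = p.2) {n : ℕ}
    (h : ∀ j < n, OKc TB QT w PR cw gen valid j) {j k : ℕ} (hj : j < n)
    (hl : slot ((get TB j) &&& 65535) ((get TB j) >>> 16) k = 1) : False := by
  obtain ⟨p, hp, -⟩ := derived htab hprod hval h hj (l := []) (fun p hp => absurd hp
    (List.not_mem_nil)) hl
  exact absurd hp (List.not_mem_nil)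

end

end Rpr
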