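import Pool.Agent.Rpr.Def
import Mathlib.Data.Nat.Prime.Basic
import Mathlib.Tactic

/-!
# A kernel-fast checker for propositional refutations

Literals are primes `q` with `2048 < q < 2 ^ 22`; the negation of the literal `q` is the prime
`q ^^^ 2`. A clause is the product of its literals. One unit propagation with the clause `c` under
the product `F` of the literals known to be false is `R = c / gcd c F`: if `R < 2 ^ 22` then `R` is
the literal which must be true, and `F` becomes `F * (R ^^^ 2)`.
Clauses are stored in blocks: a block is a number `X`, its low 16 bits are the slot width `s`, the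
clause number `k` is the slot of `s` bits at position `16 + k * s`.
-/

set_option autoImplicit false

namespace Rpr

/-! ## The meaning of clauses -/

def Code (q : ℕ) : Prop := 2048 < q ∧ q.Prime ∧ (q ^^^ 2).Prime

def Good (c : ℕ) : Prop := ∀ q : ℕ, q.Prime → q ∣ c → Code q

def Sat (V : ℕ → Bool) (c : ℕ) : Prop := ∃ q : ℕ, q.Prime ∧ q ∣ c ∧ V q = true

def P (V : ℕ → Bool) (c : ℕ) : Prop := c = 0 ∨ (Sat V c ∧ Good c)

def Fal (V : ℕ → Bool) (F : ℕ) : Prop := ∀ q : ℕ, q.Prime → q ∣ F → V q = false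

structure Vok (V : ℕ → Bool) : Prop where
  neg : ∀ q, V (q ^^^ 2) = !V q
  two : V 2 = false

theorem step {V : ℕ → Bool} (hV : Vok V) {c F : ℕ} (hc : P V c) (hF : Fal V F)
    (hR : c / Nat.gcd c F ≤ 4194303) : Fal V (F * ((c / Nat.gcd c F) ^^^ 2)) := by
  rcases hc with rfl | ⟨⟨q0, hq0, hd, hv⟩, hg⟩
  · intro q hq hqd
    have h0 : (0 / Nat.gcd 0 F) ^^^ 2 = 2 := by simp
    rw [h0] at hqd
    rcases (Nat.Prime.dvd_mul hq).1 hqd with h | h
    · exact hF q hq h
    · rw [(Nat.prime_dvd_prime_iff_eq hq Nat.prime_two).1 h]; exact hV.two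
  · by_cases hc0 : c = 0
    · subst hc0
      exfalso
      have := hg 3 Nat.prime_three (dvd_zero _)
      have h3 := this.1
      omega
    have hgpos : 0 < Nat.gcd c F := Nat.gcd_pos_of_pos_left _ (Nat.pos_of_ne_zero hc0)
    set R := c / Nat.gcd c F with hRdef
    have hcR : c = Nat.gcd c F * R := (Nat.mul_div_cancel' (Nat.gcd_dvd_left c F)).symm
    have hRc : R ∣ c := Dvd.intro_left _ hcR.symm
    have hqR : q0 ∣ R := by
      rw [hcR] at hd
      rcases (Nat.Prime.dvd_mul hq0).1 hd with h | h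
      · have h1 := hF q0 hq0 (h.trans (Nat.gcd_dvd_right _ _))
        rw [hv] at h1; exact absurd h1 (by decide)
      · exact h
    have hR0 : R ≠ 0 := by
      intro h; rw [h, mul_zero] at hcR; exact hc0 hcR
    obtain ⟨r, hr⟩ := hqR
    have hq0c : Code q0 := hg q0 hq0 (by rw [hcR]; exact Dvd.dvd.mul_left ⟨r, hr⟩ _)
    have hr1 : r = 1 := by
      by_contra hne
      obtain ⟨p, hp, hpr⟩ := Nat.exists_prime_and_dvd hne
      have hpc : Code p := hg p hp ((hpr.trans (Dvd.intro_left _ hr.symm)).trans hRc)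
      have hr0 : 0 < r := by
        rcases Nat.eq_zero_or_pos r with h | h
        · rw [h, mul_zero] at hr; exact absurd hr hR0
        · exact h
      have hle : p ≤ r := Nat.le_of_dvd hr0 hpr
      have h1 : 2049 * 2049 ≤ q0 * r := Nat.mul_le_mul hq0c.1 (hpc.1.trans_le hle)
      rw [← hr] at h1
      omega
    rw [hr1, mul_one] at hr
    intro q hq hqd
    rw [hr] at hqd
    rcases (Nat.Prime.dvd_mul hq).1 hqd with h | h
    · exact hF q hq h
    · rw [(Nat.prime_dvd_prime_iff_eq hq hq0c.2.2).1 h, hV.neg, hv]; rfl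

theorem final {V : ℕ → Bool} (hV : Vok V) {c F : ℕ} (hc : P V c) (hF : Fal V F)
    (hR : Nat.gcd c F = c) : False := by
  have hcF : c ∣ F := by rw [← hR]; exact Nat.gcd_dvd_right _ _
  rcases hc with rfl | ⟨⟨q0, hq0, hd, hv⟩, hg⟩
  · have hF0 : F = 0 := Nat.eq_zero_of_zero_dvd hcF
    rw [hF0] at hF
    have h5 := hF 5 Nat.prime_five (dvd_zero _)
    have h7 := hF 7 (by norm_num) (dvd_zero _)
    have h57 := hV.neg 5
    have e : (5 ^^^ 2 : ℕ) = 7 := by decide
    rw [e, h5, h7] at h57
    exact absurd h57 (by decide)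
  · have h1 := hF q0 hq0 (hd.trans hcF)
    rw [hv] at h1; exact absurd h1 (by decide)

/-! ## The loop over the hints -/

theorem lp_sound {V : ℕ → Bool} (hV : Vok V) {T S M : ℕ}
    (hT : ∀ k, P V (Nat.land (Nat.shiftRight T (Nat.mul k S)) M)) :
    ∀ n H F, lp T S M n H F = true → Fal V F → False := by
  intro n
  induction n with
  | zero =>
    intro H F h hF
    have h' : Nat.beq (Nat.gcd (Nat.land (Nat.shiftRight T (Nat.mul (Nat.land H 4095) S)) M) F)
      (Nat.land (Nat.shiftRight T (Nat.mul (Nat.land H 4095) S)) M) = true := h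
    exact final hV (hT _) hF (Nat.eq_of_beq_eq_true h')
  | succ n ih =>
    intro H F h hF
    have h' : Bool.rec (motive := fun _ => Bool) false
        (lp T S M n (Nat.shiftRight H 12) (Nat.mul F (Nat.xor
          (Nat.div (Nat.land (Nat.shiftRight T (Nat.mul (Nat.land H 4095) S)) M)
            (Nat.gcd (Nat.land (Nat.shiftRight T (Nat.mul (Nat.land H 4095) S)) M) F)) 2)))
        (Nat.ble (Nat.div (Nat.land (Nat.shiftRight T (Nat.mul (Nat.land H 4095) S)) M)
            (Nat.gcd (Nat.land (Nat.shiftRight T (Nat.mul (Nat.land H 4095) S)) M) F))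
          4194303) = true := h
    cases hb : (Nat.ble (Nat.div (Nat.land (Nat.shiftRight T (Nat.mul (Nat.land H 4095) S)) M)
            (Nat.gcd (Nat.land (Nat.shiftRight T (Nat.mul (Nat.land H 4095) S)) M) F))
          4194303) with
    | false => rw [hb] at h'; exact absurd (show false = true from h') (by decide)
    | true =>
      rw [hb] at h'
      exact ih _ _ h' (step hV (hT _) hF (Nat.le_of_ble_eq_true hb))

theorem bool_rec_true {a b : Bool} (h : Bool.rec (motive := fun _ => Bool) false a b = true) :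
    b = true ∧ a = true := by
  cases b with
  | false => exact absurd (show false = true from h) (by decide)
  | true => exact ⟨rfl, h⟩

/-! ## Slots -/

/-- slot `k` of width `S` -/
def slot (S T k : ℕ) : ℕ := (T >>> (k * S)) &&& (2 ^ S - 1)

theorem slot_lt (S T k : ℕ) : slot S T k < 2 ^ S := by
  unfold slot
  exact lt_of_le_of_lt Nat.and_le_right (Nat.sub_lt (Nat.two_pow_pos S) Nat.one_pos)

theorem slot_testBit (S T k i : ℕ) : (slot S T k).testBit i =
    (decide (i < S) && T.testBit (k * S + i)) := by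
  unfold slot
  rw [Nat.testBit_and, Nat.testBit_shiftRight, Nat.testBit_two_pow_sub_one, Bool.and_comm]

theorem slot_push {S T n c : ℕ} (hT : T < 2 ^ (n * S)) (hc : c < 2 ^ S) (k : ℕ) :
    slot S (T ||| (c <<< (n * S))) k = if k = n then c else slot S T k := by
  apply Nat.eq_of_testBit_eq
  intro i
  rw [slot_testBit, Nat.testBit_or, Nat.testBit_shiftLeft]
  by_cases hi : i < S
  · by_cases hk : k = n
    · subst hk
      have h1 : T.testBit (k * S + i) = false :=
        Nat.testBit_lt_two_pow (hT.trans_le (Nat.pow_le_pow_right (by norm_num) (by omega)))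
      simp [hi, h1]
    · rw [if_neg hk, slot_testBit]
      simp only [hi, decide_true, Bool.true_and]
      rcases Nat.lt_or_gt_of_ne hk with h | h
      · have h2 : ¬ (n * S ≤ k * S + i) := by
          have : (k + 1) * S ≤ n * S := Nat.mul_le_mul_right S h
          rw [Nat.add_mul, Nat.one_mul] at this
          omega
        simp [h2]
      · have h3 : (n + 1) * S ≤ k * S := Nat.mul_le_mul_right S h
        rw [Nat.add_mul, Nat.one_mul] at h3
        have h4 : c.testBit (k * S + i - n * S) = false :=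
          Nat.testBit_lt_two_pow (hc.trans_le (Nat.pow_le_pow_right (by norm_num) (by omega)))
        simp [h4]
  · have h5 : (if k = n then c else slot S T k).testBit i = false := by
      split
      · exact Nat.testBit_lt_two_pow (hc.trans_le (Nat.pow_le_pow_right (by norm_num) (by omega)))
      · rw [slot_testBit]; simp [hi]
    rw [h5]
    simp [hi]

theorem push_lt {S T n c : ℕ} (hT : T < 2 ^ (n * S)) (hc : c < 2 ^ S) :
    T ||| (c <<< (n * S)) < 2 ^ ((n + 1) * S) := by
  apply Nat.lt_pow_two_of_testBit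
  intro i hi
  rw [Nat.add_mul, Nat.one_mul] at hi
  rw [Nat.testBit_or, Nat.testBit_shiftLeft]
  have h1 : T.testBit i = false :=
    Nat.testBit_lt_two_pow (hT.trans_le (Nat.pow_le_pow_right (by norm_num) (by omega)))
  have h2 : c.testBit (i - n * S) = false :=
    Nat.testBit_lt_two_pow (hc.trans_le (Nat.pow_le_pow_right (by norm_num) (by omega)))
  simp [h1, h2]

/-- the local table -/
structure TI (V : ℕ → Bool) (S n T : ℕ) : Prop where
  lt : T < 2 ^ (n * S)
  ok : ∀ k, P V (slot S T k)

theorem TI.push {V : ℕ → Bool} {S n T c : ℕ} (h : TI V S n T) (hc : c < 2 ^ S) (hP : P V c) :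
    TI V S (n + 1) (T ||| (c <<< (n * S))) := by
  refine ⟨push_lt h.lt hc, fun k => ?_⟩
  rw [slot_push h.lt hc]
  split
  · exact hP
  · exact h.ok k

/-- the clauses of a block -/
def OKB (V : ℕ → Bool) (X : ℕ) : Prop := ∀ k, P V (slot (X &&& 65535) (X >>> 16) k)

theorem block_slot (X k : ℕ) : slot (X &&& 65535) (X >>> 16) k =
    Nat.land (Nat.shiftRight X (Nat.add 16 (Nat.mul k (Nat.land X 65535))))
      (Nat.sub (Nat.shiftLeft 1 (Nat.land X 65535)) 1) := by
  have h1 : (X >>> 16) >>> (k * (X &&& 65535)) = X >>> (16 + k * (X &&& 65535)) := by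
    rw [← Nat.shiftRight_add]
  unfold slot
  rw [h1]
  have h2 : Nat.sub (Nat.shiftLeft 1 (Nat.land X 65535)) 1 = 2 ^ (X &&& 65535) - 1 := by
    show (1 <<< (X &&& 65535)) - 1 = _
    rw [Nat.one_shiftLeft]
  rw [h2]
  rfl

/-! ## The check of a block of derived clauses -/

theorem good_of_dvd {a b : ℕ} (h : a ∣ b) (hb : Good b) : Good a :=
  fun q hq hqa => hb q hq (hqa.trans h)

theorem M_eq (S : ℕ) : Nat.sub (Nat.shiftLeft 1 S) 1 = 2 ^ S - 1 := by
  show (1 <<< S) - 1 = _
  rw [Nat.one_shiftLeft]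

theorem lems_sound {V : ℕ → Bool} (hV : Vok V) {PR X S : ℕ} (hPR : Good PR)
    (hS : X &&& 65535 ≤ S) :
    ∀ (hs : List ℕ) (m n T : ℕ), TI V S n T →
      lems PR X (Nat.land X 65535) (Nat.sub (Nat.shiftLeft 1 (Nat.land X 65535)) 1) S
        (Nat.sub (Nat.shiftLeft 1 S) 1) hs m n T = true →
      ∀ k, m ≤ k → P V (slot (X &&& 65535) (X >>> 16) k) := by
  intro hs
  induction hs with
  | nil =>
    intro m n T _ h k hk
    have h0 : Nat.shiftRight X (Nat.add 16 (Nat.mul m (Nat.land X 65535))) = 0 :=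
      Nat.eq_of_beq_eq_true h
    have h1 : X >>> (16 + m * (X &&& 65535)) = 0 := h0
    left
    have h2 : X >>> (16 + k * (X &&& 65535)) = 0 := by
      obtain ⟨d, rfl⟩ := Nat.exists_eq_add_of_le hk
      rw [show 16 + (m + d) * (X &&& 65535) = (16 + m * (X &&& 65535)) + d * (X &&& 65535) by ring,
        Nat.shiftRight_add, h1, Nat.zero_shiftRight]
    unfold slot
    rw [← Nat.shiftRight_add, h2, Nat.zero_and]
  | cons e hs ih =>
    intro m n T hT h
    have h' := bool_rec_true h
    obtain ⟨hlp, h''⟩ := h'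
    have h3 := bool_rec_true h''
    obtain ⟨hmod, hrec⟩ := h3
    rw [← block_slot X m] at hlp hmod
    set D := slot (X &&& 65535) (X >>> 16) m with hD
    have hDlt : D < 2 ^ S := (slot_lt _ _ _).trans_le (Nat.pow_le_pow_right (by norm_num) hS)
    have hTk : ∀ k, P V (Nat.land (Nat.shiftRight T (Nat.mul k S)) (Nat.sub (Nat.shiftLeft 1 S) 1)) := by
      intro k
      rw [M_eq]
      exact hT.ok k
    have hnf : ¬ Fal V D := fun hF => lp_sound hV hTk _ _ _ hlp hF
    have hsat : Sat V D := by
      by_contra hns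
      apply hnf
      intro q hq hqd
      by_contra hvq
      exact hns ⟨q, hq, hqd, by simpa using hvq⟩
    have hDdvd : D ∣ PR := Nat.dvd_of_mod_eq_zero (Nat.eq_of_beq_eq_true hmod)
    have hP : P V D := Or.inr ⟨hsat, good_of_dvd hDdvd hPR⟩
    have hrec' : lems PR X (Nat.land X 65535) (Nat.sub (Nat.shiftLeft 1 (Nat.land X 65535)) 1) S
        (Nat.sub (Nat.shiftLeft 1 S) 1) hs (m + 1) (n + 1) (T ||| (D <<< (n * S))) = true := by
      rw [hD, block_slot X m]
      exact hrec
    have hres := ih (m + 1) (n + 1) _ (hT.push hDlt hP) hrec'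
    intro k hk
    rcases Nat.eq_or_lt_of_le hk with rfl | hlt
    · exact hP
    · exact hres k hlt

theorem extd_sound {V : ℕ → Bool} {X S : ℕ} (hX : OKB V X) (hS : X &&& 65535 ≤ S)
    (K : ℕ → ℕ → Bool) (G : Prop) (hK : ∀ n T, TI V S n T → K n T = true → G) :
    ∀ (cnt d n T : ℕ), TI V S n T →
      extd X (Nat.land X 65535) (Nat.sub (Nat.shiftLeft 1 (Nat.land X 65535)) 1) S K cnt d n T
        = true → G := by
  intro cnt
  induction cnt with
  | zero => intro d n T hT h; exact hK n T hT h
  | succ cnt ih =>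
    intro d n T hT h
    have h' := (bool_rec_true h).2
    refine ih (Nat.shiftRight d 12) (n + 1)
      (T ||| ((slot (X &&& 65535) (X >>> 16) (Nat.land d 4095)) <<< (n * S))) ?_ ?_
    · exact hT.push ((slot_lt _ _ _).trans_le (Nat.pow_le_pow_right (by norm_num) hS)) (hX _)
    · rw [block_slot]
      exact h'

theorem exts_sound {V : ℕ → Bool} {TB : Tr} {j S : ℕ} (hB : ∀ b < j, OKB V (get TB b))
    (K : ℕ → ℕ → Bool) (G : Prop) (hK : ∀ n T, TI V S n T → K n T = true → G) :
    ∀ (gs : List ℕ) (n T : ℕ), TI V S n T → exts TB j S K gs n T = true → G := by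
  intro gs
  induction gs with
  | nil => intro n T hT h; exact hK n T hT h
  | cons g gs ih =>
    intro n T hT h
    obtain ⟨h1, h2⟩ := bool_rec_true h
    obtain ⟨h3, h4⟩ := bool_rec_true h2
    exact extd_sound (hB _ (Nat.le_of_ble_eq_true h1)) (Nat.le_of_ble_eq_true h3) _ G
      (fun n' T' hT' hK' => ih n' T' hT' hK') _ _ _ _ hT h4

theorem chkL_sound {V : ℕ → Bool} (hV : Vok V) {TB : Tr} {PR j S : ℕ} {gs hs : List ℕ}
    (hPR : Good PR) (hB : ∀ b < j, OKB V (get TB b)) (h : chkL TB PR j S gs hs = true) :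
    OKB V (get TB j) := by
  obtain ⟨h1, h2⟩ := bool_rec_true h
  have hSX : (get TB j) &&& 65535 ≤ S := Nat.le_of_ble_eq_true h1
  refine exts_sound hB _ (OKB V (get TB j)) ?_ gs 0 0 ?_ h2
  · intro n T hT hK k
    exact lems_sound hV hPR hSX hs 0 n T hT hK k (Nat.zero_le k)
  · refine ⟨by simp, fun k => Or.inl ?_⟩
    simp [slot]

end Rpr
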