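import Mathlib.Data.Nat.Notation

/-!
# A kernel-fast checker for propositional refutations: the definitions
-/

set_option autoImplicit false

namespace Rpr

/-- a binary tree of blocks -/
inductive Tr where
  | E : Tr
  | leaf : ℕ → Tr
  | node : Tr → Tr → Tr

/-- lookup, least significant bit first -/
noncomputable def get (t : Tr) : ℕ → ℕ :=
  Tr.rec (motive := fun _ => ℕ → ℕ) (fun _ => 0) (fun n _ => n)
    (fun _ _ gl gr i => Nat.rec (motive := fun _ => ℕ) (gl (Nat.shiftRight i 1))
      (fun _ _ => gr (Nat.shiftRight i 1)) (Nat.land i 1)) t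

/-- numerals are given in pieces of 8192 bits -/
noncomputable def cat (l : List ℕ) : ℕ :=
  List.rec (motive := fun _ => ℕ) 0 (fun a _ ih => Nat.lor a (Nat.shiftLeft ih 8192)) l

/-- `n + 1` hints with 12 bits each are in `H`; `T` = local table with slots of `S` bits,
`M = 2 ^ S - 1`. -/
noncomputable def lp (T S M : ℕ) (n : ℕ) : ℕ → ℕ → Bool :=
  Nat.rec (motive := fun _ => ℕ → ℕ → Bool)
    (fun H F => (fun c => Nat.beq (Nat.gcd c F) c)
      (Nat.land (Nat.shiftRight T (Nat.mul (Nat.land H 4095) S)) M))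
    (fun _ ih H F =>
      (fun R => Bool.rec (motive := fun _ => Bool) false
        (ih (Nat.shiftRight H 12) (Nat.mul F (Nat.xor R 2))) (Nat.ble R 4194303))
        ((fun c => Nat.div c (Nat.gcd c F))
          (Nat.land (Nat.shiftRight T (Nat.mul (Nat.land H 4095) S)) M))) n

/-- the derived clauses; `PR` = product of all literals, `X` = the block, `m` = number of the
clause in the block, `n` = number of clauses in the local table -/
noncomputable def lems (PR X SX MX S M : ℕ) (hs : List ℕ) : ℕ → ℕ → ℕ → Bool :=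
  List.rec (motive := fun _ => ℕ → ℕ → ℕ → Bool)
    (fun m _ _ => Nat.beq (Nat.shiftRight X (Nat.add 16 (Nat.mul m SX))) 0)
    (fun e _ ih m n T =>
      (fun D => Bool.rec (motive := fun _ => Bool) false
        (Bool.rec (motive := fun _ => Bool) false
          (ih (Nat.succ m) (Nat.succ n) (Nat.lor T (Nat.shiftLeft D (Nat.mul n S))))
          (Nat.beq (Nat.mod PR D) 0))
        (lp T S M (Nat.land e 65535) (Nat.shiftRight e 16) D))
      (Nat.land (Nat.shiftRight X (Nat.add 16 (Nat.mul m SX))) MX)) hs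

/-- clauses of the block `X` enter the local table -/
noncomputable def extd (X SX MX S : ℕ) (K : ℕ → ℕ → Bool) (cnt : ℕ) : ℕ → ℕ → ℕ → Bool :=
  Nat.rec (motive := fun _ => ℕ → ℕ → ℕ → Bool) (fun _ n T => K n T)
    (fun _ ih d n T => Bool.rec (motive := fun _ => Bool) false
      (ih (Nat.shiftRight d 12) (Nat.succ n) (Nat.lor T (Nat.shiftLeft
        (Nat.land (Nat.shiftRight X (Nat.add 16 (Nat.mul (Nat.land d 4095) SX))) MX)
        (Nat.mul n S)))) (Nat.ble T T)) cnt

noncomputable def exts (TB : Tr) (j S : ℕ) (K : ℕ → ℕ → Bool) (gs : List ℕ) : ℕ → ℕ → Bool :=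
  List.rec (motive := fun _ => ℕ → ℕ → Bool) K
    (fun g _ ih n T =>
      (fun X => (fun SX => Bool.rec (motive := fun _ => Bool) false
        (Bool.rec (motive := fun _ => Bool) false
          (extd X SX (Nat.sub (Nat.shiftLeft 1 SX) 1) S ih
            (Nat.land (Nat.shiftRight g 16) 4095) (Nat.shiftRight g 28) n T)
          (Nat.ble SX S))
        (Nat.ble (Nat.succ (Nat.land g 65535)) j)) (Nat.land X 65535))
      (get TB (Nat.land g 65535))) gs

noncomputable def chkL (TB : Tr) (PR j S : ℕ) (gs hs : List ℕ) : Bool :=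
  (fun X => (fun SX => Bool.rec (motive := fun _ => Bool) false
    (exts TB j S (fun n T => lems PR X SX (Nat.sub (Nat.shiftLeft 1 SX) 1) S
      (Nat.sub (Nat.shiftLeft 1 S) 1) hs 0 n T) gs 0 0) (Nat.ble SX S)) (Nat.land X 65535))
  (get TB j)

/-- the product of the primes below 2048 -/
def PP : ℕ := 0x16564585b08dd5f22877a1318f86bdba7b0fc51815d34d06aafad397b90dcc208983465ef092dd5f060702d33a48c43ff82bfd1c2f3bd33339f9247351e6078ca7f3ce6091e985f04906d8dbd8431850a0ddbf985616af93522af8c99800a2aa0f5d0f3e2203ecc7cf46f27af897650509ee941d6c42f9f8052df7a69aa96f5d6f66c88bca6912855f86bc161e55552cc57a4a876094b64f0e4c61e60b9135466d35e4b21b8ba5382e3f149ce485384228cdff62f1f4e5426551974970db8cd22db8b45094fe86a3fc3225c4f2ec4efa418df4919e5a3bb3530f0fc3c6ebd6520d06dfa1bfc32147ed43d5a6242769f88c2e1c7dd3f74b6b3a8c88e7583b03b870ab7a661d32f204ea77715a9bbe7469cbfb0938d24eed9f79b3de4951c4841251853c4ad4f52e1c3cfcb4e492e9eda056d47b307234379669155a17ecf4da5cb78f5cdc320ba63682aa99ba22a7eaf50eb8a4bada77ffc26c26ecbcb997d4e2793fb4fefa23e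

noncomputable def prm (q : ℕ) : Bool :=
  Bool.rec (motive := fun _ => Bool) false
    (Bool.rec (motive := fun _ => Bool) false (Nat.beq (Nat.gcd q PP) 1) (Nat.ble q 4194303))
    (Nat.ble 2049 q)

/-- the prime of the variable `x` -/
noncomputable def qt (QT x : ℕ) : ℕ := Nat.land (Nat.shiftRight QT (Nat.mul 22 x)) 4194303

noncomputable def tabc (QT n : ℕ) : Bool :=
  Nat.rec (motive := fun _ => Bool) true
    (fun x ih => Bool.rec (motive := fun _ => Bool) false
      (Bool.rec (motive := fun _ => Bool) false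
        (Bool.rec (motive := fun _ => Bool) false
          (Bool.rec (motive := fun _ => Bool) false ih
            (Nat.ble (Nat.succ (qt QT x)) (qt QT (Nat.succ x))))
          (Nat.beq (Nat.land (qt QT x) 2) 0))
        (prm (Nat.xor (qt QT x) 2)))
      (prm (qt QT x))) n

/-- the product of all literals -/
noncomputable def prodc (QT PR : ℕ) (n : ℕ) : ℕ → Bool :=
  Nat.rec (motive := fun _ => ℕ → Bool) (fun a => Nat.beq a PR)
    (fun x ih a => Bool.rec (motive := fun _ => Bool) false
      (ih (Nat.mul a (Nat.mul (qt QT x) (Nat.xor (qt QT x) 2)))) (Nat.ble a a)) n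

/-- the prime of a literal -/
noncomputable def cod (QT x : ℕ) (b : Bool) : ℕ :=
  Bool.rec (motive := fun _ => ℕ) (Nat.xor (qt QT x) 2) (qt QT x) b

noncomputable def allL (QT w c : ℕ) (l : List (ℕ × Bool)) : Bool :=
  List.rec (motive := fun _ => Bool) true
    (fun p _ ih => Bool.rec (motive := fun _ => Bool) false
      (Bool.rec (motive := fun _ => Bool) false ih (Nat.beq (Nat.mod c (cod QT p.1 p.2)) 0))
      (Nat.ble (Nat.succ p.1) w)) l

/-- `cnt` input clauses; their codes have `cw` bits each in `d` -/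
noncomputable def inpd (QT w PR cw : ℕ) (gen : ℕ → List (ℕ × Bool)) (valid : ℕ → Bool)
    (X SX MX : ℕ) (K : ℕ → Bool) (cnt : ℕ) : ℕ → ℕ → Bool :=
  Nat.rec (motive := fun _ => ℕ → ℕ → Bool) (fun _ m => K m)
    (fun _ ih d m =>
      (fun c g => Bool.rec (motive := fun _ => Bool)
        (Bool.rec (motive := fun _ => Bool) false
          (Bool.rec (motive := fun _ => Bool) false
            (Bool.rec (motive := fun _ => Bool) false (ih (Nat.shiftRight d cw) (Nat.succ m))
              (allL QT w c (gen g)))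
            (valid g))
          (Nat.beq (Nat.mod PR c) 0))
        (ih (Nat.shiftRight d cw) (Nat.succ m)) (Nat.beq c 0))
      (Nat.land (Nat.shiftRight X (Nat.add 16 (Nat.mul m SX))) MX)
      (Nat.land d (Nat.sub (Nat.shiftLeft 1 cw) 1))) cnt

/-- the check of a block of input clauses; every number of the list has the codes of 64 clauses -/
noncomputable def chkI (QT w PR cw : ℕ) (gen : ℕ → List (ℕ × Bool)) (valid : ℕ → Bool)
    (X : ℕ) (gs : List ℕ) : Bool :=
  List.rec (motive := fun _ => ℕ → Bool)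
    (fun m => Nat.beq (Nat.shiftRight X (Nat.add 16 (Nat.mul m (Nat.land X 65535)))) 0)
    (fun e _ ih m => inpd QT w PR cw gen valid X (Nat.land X 65535)
      (Nat.sub (Nat.shiftLeft 1 (Nat.land X 65535)) 1) ih 64 e m) gs 0

end Rpr
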